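import Pool.Agent.H74.OLP.Targets

/-!
# A shortest closed walk with sum 1 (row MCW)
-/

set_option autoImplicit false
set_option linter.unusedSectionVars false
open scoped Classical
open Finset

namespace Pool.Agent.H5.OLP

open Pool.Agent.H74.OLP

theorem shortcut (F : Type) (T : SimpleGraph F) (D : F → F → R) (X : Set F) (hD : Sy D) (m : ℕ)
    (u : ℕ → F) (hwf : Wf T u m) (hum : u m = u 0) (hone : fs D u 0 m = 1)
    (hX : ∀ i ≤ m, u i ∈ X)
    (hmin : ∀ x (p : T.Walk x x), (∀ y ∈ p.support, y ∈ X) → ws T D p = 1 → m ≤ p.length)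
    (i j : ℕ) (hij : i ≤ j) (hjm : j ≤ m) (q : T.Walk (u i) (u j))
    (hq : ∀ y ∈ q.support, y ∈ X) : m ≤ j - i + q.length ∨ j - i ≤ q.length := by
  obtain ⟨p1, l1, s1, m1⟩ := seg T u i j hij fun k _ hk => hwf k (by omega)
  obtain ⟨p0, l0, s0, m0⟩ := seg T u 0 i (Nat.zero_le _) fun k _ hk => hwf k (by omega)
  obtain ⟨p2, l2, s2, m2⟩ := seg T u j m hjm fun k _ hk => hwf k (by omega)
  have hsum : ws T D (p1.append q.reverse) +
      ws T D (((p0.append q).append p2).copy rfl hum) = 1 := by
    rw [ws_copy, ws_append, ws_append, ws_append, ws_reverse T hD, s1, s0, s2, ← hone,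
      fs_split D u (Nat.zero_le i) (hij.trans hjm), fs_split D u hij hjm]
    linear_combination R2 (ws T D q)
  rcases Rsum hsum with h | h
  · left
    have h1 := hmin _ _ (fun y hy => ?_) h
    · rw [SimpleGraph.Walk.length_append, SimpleGraph.Walk.length_reverse, l1] at h1
      exact h1
    · rw [SimpleGraph.Walk.mem_support_append_iff, SimpleGraph.Walk.support_reverse,
        List.mem_reverse] at hy
      rcases hy with hy | hy
      · obtain ⟨k, _, hk, rfl⟩ := m1 y hy
        exact hX k (by omega)
      · exact hq y hy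
  · right
    have h1 := hmin _ _ (fun y hy => ?_) h
    · rw [SimpleGraph.Walk.length_copy, SimpleGraph.Walk.length_append,
        SimpleGraph.Walk.length_append, l0, l2] at h1
      omega
    · rw [SimpleGraph.Walk.support_copy, SimpleGraph.Walk.mem_support_append_iff,
        SimpleGraph.Walk.mem_support_append_iff] at hy
      rcases hy with (hy | hy) | hy
      · obtain ⟨k, _, hk, rfl⟩ := m0 y hy
        exact hX k (by omega)
      · exact hq y hy
      · obtain ⟨k, _, hk, rfl⟩ := m2 y hy
        exact hX k hk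

theorem pf_MCW : T_MCW := by
  intro F T D X hD hN
  have hex : ∃ n : ℕ, ∃ (x : F) (p : T.Walk x x), (∀ y ∈ p.support, y ∈ X) ∧ ws T D p = 1 ∧
      p.length = n := by
    unfold Null at hN
    push Not at hN
    obtain ⟨x, p, hp, hne⟩ := hN
    exact ⟨p.length, x, p, hp, (Rne _).1 hne, rfl⟩
  obtain ⟨x₀, P, hPX, hP1, hPm⟩ := Nat.find_spec hex
  set m := Nat.find hex with hm
  have hmin : ∀ x (p : T.Walk x x), (∀ y ∈ p.support, y ∈ X) → ws T D p = 1 →
      m ≤ p.length := fun x p h1 h2 => Nat.find_min' hex ⟨x, p, h1, h2, rfl⟩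
  obtain ⟨hwf, hu0, hum, hfs, hsup⟩ := wfun T P
  rw [hPm] at hwf hum hfs hsup
  set u := P.getVert with hu
  have hum0 : u m = u 0 := hum.trans hu0.symm
  have hone : fs D u 0 m = 1 := (hfs D).trans hP1
  have hX : ∀ i ≤ m, u i ∈ X := fun i hi => hPX _ ((hsup _).2 ⟨i, hi, rfl⟩)
  have hkey := shortcut F T D X hD m u hwf hum0 hone hX hmin
  have hinj : ∀ i j : ℕ, i < j → j < m → u i ≠ u j := by
    intro i j hij hjm he
    have h1 := hkey i j hij.le hjm.le ((SimpleGraph.Walk.nil : T.Walk (u i) (u i)).copy rfl he)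
      (fun y hy => by
        rw [SimpleGraph.Walk.support_copy, SimpleGraph.Walk.support_nil, List.mem_singleton] at hy
        rw [hy]
        exact hX i (by omega))
    rw [SimpleGraph.Walk.length_copy, SimpleGraph.Walk.length_nil] at h1
    omega
  refine ⟨m, u, ?_, hwf, hum0, hone, hX, ?_, ?_, hmin⟩
  · by_contra hlt
    push Not at hlt
    have h3 : m = 0 ∨ m = 1 ∨ m = 2 := by omega
    rcases h3 with h | h | h
    · rw [h, fs_self] at hone
      exact absurd hone (by decide)
    · have h4 := hwf 0 (by omega)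
      rw [h] at hum0
      rw [zero_add, hum0] at h4
      exact T.loopless.irrefl _ h4
    · rw [h] at hum0 hone
      rw [fs_split D u (by omega : 0 ≤ 1) (by omega : 1 ≤ 2), fs_one, fs_one, hum0,
        hD (u 1) (u 0), zero_add, R2] at hone
      exact absurd hone (by decide)
  · intro i hi j hj he
    rcases lt_trichotomy i j with h | h | h
    · exact absurd he (hinj i j h hj)
    · exact h
    · exact absurd he.symm (hinj j i h hi)
  · intro i hi j hj hij hadj
    have h1 := hkey i j hij.le hj.le (.cons hadj .nil) (fun y hy => by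
      rw [SimpleGraph.Walk.support_cons, SimpleGraph.Walk.support_nil, List.mem_cons,
        List.mem_singleton] at hy
      rcases hy with rfl | rfl
      · exact hX i (by omega)
      · exact hX j (by omega))
    rw [SimpleGraph.Walk.length_cons, SimpleGraph.Walk.length_nil] at h1
    omega

end Pool.Agent.H5.OLP
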